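import Pool.Agent.H18.SAP.Stmts

set_option autoImplicit false

namespace SAP
open Finset

theorem sel_greedy {ι : Type} [DecidableEq ι] (A : ι → Finset ℕ) (b : ℝ) (hb0 : 0 ≤ b)
    (hb : ∀ i, ∀ t0 ∈ A i, ∀ j, (((A j).filter (fun t => ¬ t.Coprime t0)).card : ℝ) ≤ b)
    (s : Finset ι) (hA : ∀ i, (s.card : ℝ) * b < ((A i).card : ℝ)) :
    ∃ t : ι → ℕ, (∀ i ∈ s, t i ∈ A i) ∧ ∀ i ∈ s, ∀ j ∈ s, i ≠ j → (t i).Coprime (t j) := by
  induction s using Finset.induction_on with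
  | empty => exact ⟨fun _ => 0, by simp, by simp⟩
  | insert a s ha ih =>
    rw [card_insert_of_notMem ha] at hA
    push_cast at hA
    obtain ⟨t, ht1, ht2⟩ := ih (fun i => by have := hA i; nlinarith)
    have hun : ((s.biUnion (fun i => (A a).filter (fun u => ¬ u.Coprime (t i)))).card : ℝ) ≤
        s.card * b := by
      calc ((s.biUnion (fun i => (A a).filter (fun u => ¬ u.Coprime (t i)))).card : ℝ)
          ≤ ((∑ i ∈ s, ((A a).filter (fun u => ¬ u.Coprime (t i))).card : ℕ) : ℝ) := by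
            exact_mod_cast card_biUnion_le
        _ = ∑ i ∈ s, (((A a).filter (fun u => ¬ u.Coprime (t i))).card : ℝ) := by push_cast; rfl
        _ ≤ ∑ _i ∈ s, b := sum_le_sum fun i hi => hb i (t i) (ht1 i hi) a
        _ = s.card * b := by rw [sum_const, nsmul_eq_mul]
    have hex : ∃ u ∈ A a, u ∉ s.biUnion (fun i => (A a).filter (fun u => ¬ u.Coprime (t i))) := by
      by_contra hcon
      push Not at hcon
      have hsub : A a ⊆ s.biUnion (fun i => (A a).filter (fun u => ¬ u.Coprime (t i))) := hcon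
      have h1 : ((A a).card : ℝ) ≤
          ((s.biUnion (fun i => (A a).filter (fun u => ¬ u.Coprime (t i)))).card : ℝ) := by
        exact_mod_cast card_le_card hsub
      have h2 := hA a
      nlinarith
    obtain ⟨u, hu, hu'⟩ := hex
    have hcop : ∀ i ∈ s, u.Coprime (t i) := by
      intro i hi
      by_contra hc
      exact hu' (mem_biUnion.mpr ⟨i, hi, mem_filter.mpr ⟨hu, hc⟩⟩)
    have hne : ∀ i ∈ s, i ≠ a := fun i hi h => ha (h ▸ hi)
    refine ⟨fun i => if i = a then u else t i, ?_, ?_⟩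
    · intro i hi
      by_cases h : i = a
      · subst h; simpa using hu
      · simp only [h, if_false]
        exact ht1 i ((mem_insert.mp hi).resolve_left h)
    · intro i hi j hj hij
      by_cases h : i = a
      · subst h
        have hj' : j ∈ s := (mem_insert.mp hj).resolve_left (fun h => hij h.symm)
        simp only [if_true, hne j hj', if_false]
        exact hcop j hj'
      · have hi' : i ∈ s := (mem_insert.mp hi).resolve_left h
        by_cases h' : j = a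
        · subst h'
          simp only [h, if_false, if_true]
          exact (hcop i hi').symm
        · have hj' : j ∈ s := (mem_insert.mp hj).resolve_left h'
          simp only [h, h', if_false]
          exact ht2 i hi' j hj' hij

theorem sel (hPOP : S_POP) (hSHR : S_SHR) (hBAD : S_BAD) : S_SEL := by
  classical
  obtain ⟨K, hK, hpop⟩ := hPOP
  refine ⟨4 * K, fun m => ?_⟩
  obtain ⟨n, hn⟩ := hpop m
  refine ⟨n, fun J _ c hmono hpos hdiv => ?_⟩
  have hKr : (1 : ℝ) ≤ (K : ℝ) := by exact_mod_cast hK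
  have hK0 : (0 : ℝ) < (K : ℝ) := by linarith
  obtain ⟨I, hI, hx⟩ := hn J c hmono hpos hdiv (1 / (2 * (K : ℝ))) (by positivity)
  refine ⟨I, hI, ?_⟩
  intro R S X0
  choose C hC0 hC using fun (j : J) (i : Fin n) => hBAD K (c j i) S hK (hpos j i)
  choose P0 hP0 hP0' hP0m using fun (j : J) (i : Fin n) =>
    Nat.exists_prime_gt_modEq_one (k := c j i) 0 (by have := hpos j i; omega)
  -- constants
  set X1 : ℕ := X0 + ∑ j, ∑ i, (c j i + P0 j i) with hX1
  have hcX1 : ∀ j i, c j i + P0 j i ≤ X1 := by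
    intro j i
    have h1 : c j i + P0 j i ≤ ∑ i, (c j i + P0 j i) :=
      single_le_sum (f := fun i => c j i + P0 j i) (fun _ _ => Nat.zero_le _) (mem_univ i)
    have h2 : ∑ i, (c j i + P0 j i) ≤ ∑ j, ∑ i, (c j i + P0 j i) :=
      single_le_sum (f := fun j => ∑ i, (c j i + P0 j i)) (fun _ _ => Nat.zero_le _) (mem_univ j)
    omega
  set Cs : ℝ := ∑ j, ∑ i, C j i with hCs
  have hCs0 : 0 ≤ Cs := sum_nonneg fun j _ => sum_nonneg fun i _ => (hC0 j i).le
  set Mb : ℝ := (Fintype.card (J × Fin R) : ℝ) * (32 * K) + Cs with hMb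
  have hMb0 : 0 ≤ Mb := by positivity
  set Z : ℝ := (X1 : ℝ) + Mb + 2 with hZ
  have hX1r : (0 : ℝ) ≤ (X1 : ℝ) := Nat.cast_nonneg _
  have hZ2 : 2 ≤ Z := by rw [hZ]; linarith
  obtain ⟨x, hxN, hxc⟩ := hx (Z ^ (2 * K) + 8 * (X1 : ℝ))
  have hZp1 : 1 ≤ Z ^ (2 * K) := one_le_pow₀ (by linarith)
  have hZpow : Z ≤ Z ^ (2 * K) := by
    calc Z = Z ^ 1 := (pow_one Z).symm
      _ ≤ Z ^ (2 * K) := pow_le_pow_right₀ (by linarith) (by omega)
  have hx2 : 2 ≤ x := by linarith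
  have hx0 : 0 < x := by linarith
  have hxX : 8 * (X1 : ℝ) ≤ x := by linarith
  have hxZ : Z ^ (2 * K) ≤ x := by linarith
  have hxr : Z ≤ x ^ (1 / (2 * (K : ℝ))) := by
    have h1 : (Z ^ (2 * K)) ^ (1 / (2 * (K : ℝ))) = Z := by
      rw [← Real.rpow_natCast, ← Real.rpow_mul (by linarith)]
      push_cast
      rw [mul_one_div_cancel (by positivity), Real.rpow_one]
    calc Z = (Z ^ (2 * K)) ^ (1 / (2 * (K : ℝ))) := h1.symm
      _ ≤ x ^ (1 / (2 * (K : ℝ))) :=
        Real.rpow_le_rpow (by positivity) hxZ (by positivity)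
  have hxr2 : Z ≤ x ^ (1 / (K : ℝ)) := by
    refine hxr.trans (Real.rpow_le_rpow_of_exponent_le (by linarith) ?_)
    apply one_div_le_one_div_of_le hK0
    linarith
  -- the error unit
  set E : ℝ := x ^ (1 - 1 / (K : ℝ)) with hE
  have hE0 : 0 < E := Real.rpow_pos_of_pos hx0 _
  have hmain : Mb * E < x ^ (1 - 1 / (2 * (K : ℝ))) := by
    have h1 : x ^ (1 - 1 / (2 * (K : ℝ))) = x ^ (1 / (2 * (K : ℝ))) * E := by
      rw [hE, ← Real.rpow_add hx0]
      congr 1
      field_simp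
      ring
    rw [h1]
    apply mul_lt_mul_of_pos_right _ hE0
    have : Mb < Z := by rw [hZ]; linarith
    linarith
  -- the sets
  set A : J → Finset ℕ := fun j => (Icc 1 ⌊8 * x⌋₊).filter (fun t : ℕ => x / 8 ≤ (t : ℝ) ∧
      (∀ p ∈ t.primeFactors, x ^ (1 / (K : ℝ)) ≤ (p : ℝ)) ∧
      (∀ i ∈ I j, (c j i * t + 1).Prime) ∧
      ∀ i ∈ I j, ∀ ρ : ℕ, ρ.Prime → ρ ∣ t → ∃ P : ℕ, Lst (c j i) t ρ S P) with hA
  have hAcard : ∀ j, x ^ (1 - 1 / (2 * (K : ℝ))) ≤ ((A j).card : ℝ) + Cs * E := by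
    intro j
    have hsub : (Icc 1 ⌊8 * x⌋₊).filter (fun t : ℕ => x / 8 ≤ (t : ℝ) ∧
      (∀ p ∈ t.primeFactors, x ^ (1 / (K : ℝ)) ≤ (p : ℝ)) ∧
      ∀ i ∈ I j, (c j i * t + 1).Prime) ⊆ A j ∪ (I j).biUnion (fun i =>
        (Icc 1 ⌊8 * x⌋₊).filter (fun t : ℕ =>
          (∀ p ∈ t.primeFactors, x ^ (1 / (K : ℝ)) ≤ (p : ℝ)) ∧
          (c j i * t + 1).Prime ∧ ∃ ρ : ℕ, ρ.Prime ∧ ρ ∣ t ∧ ¬ ∃ P : ℕ, Lst (c j i) t ρ S P)) := by
      intro t ht
      rw [mem_filter] at ht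
      obtain ⟨ht1, ht2, ht3, ht4⟩ := ht
      rw [mem_union]
      by_cases hg : ∀ i ∈ I j, ∀ ρ : ℕ, ρ.Prime → ρ ∣ t → ∃ P : ℕ, Lst (c j i) t ρ S P
      · left
        rw [hA]
        exact mem_filter.mpr ⟨ht1, ht2, ht3, ht4, hg⟩
      · right
        push Not at hg
        obtain ⟨i, hi, ρ, hρ, hρt, hno⟩ := hg
        exact mem_biUnion.mpr ⟨i, hi, mem_filter.mpr ⟨ht1, ht3, ht4 i hi, ρ, hρ, hρt,
          by rintro ⟨P, hP⟩; exact hno P hP⟩⟩
    have h1 := hxc j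
    have h2 := card_le_card hsub
    have h3 := (h2.trans (card_union_le _ _)).trans (Nat.add_le_add_left card_biUnion_le _)
    have h4 : (((Icc 1 ⌊8 * x⌋₊).filter (fun t : ℕ => x / 8 ≤ (t : ℝ) ∧
      (∀ p ∈ t.primeFactors, x ^ (1 / (K : ℝ)) ≤ (p : ℝ)) ∧
      ∀ i ∈ I j, (c j i * t + 1).Prime)).card : ℝ) ≤ ((A j).card : ℝ) + ∑ i ∈ I j,
        (((Icc 1 ⌊8 * x⌋₊).filter (fun t : ℕ =>
          (∀ p ∈ t.primeFactors, x ^ (1 / (K : ℝ)) ≤ (p : ℝ)) ∧
          (c j i * t + 1).Prime ∧ ∃ ρ : ℕ, ρ.Prime ∧ ρ ∣ t ∧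
            ¬ ∃ P : ℕ, Lst (c j i) t ρ S P)).card : ℝ) := by
      exact_mod_cast h3
    have h5 : ∑ i ∈ I j,
        (((Icc 1 ⌊8 * x⌋₊).filter (fun t : ℕ =>
          (∀ p ∈ t.primeFactors, x ^ (1 / (K : ℝ)) ≤ (p : ℝ)) ∧
          (c j i * t + 1).Prime ∧ ∃ ρ : ℕ, ρ.Prime ∧ ρ ∣ t ∧
            ¬ ∃ P : ℕ, Lst (c j i) t ρ S P)).card : ℝ) ≤ Cs * E := by
      calc _ ≤ ∑ i ∈ I j, C j i * E := sum_le_sum fun i _ => by
            have := hC j i x hx2
            convert this using 3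
        _ = (∑ i ∈ I j, C j i) * E := by rw [sum_mul]
        _ ≤ Cs * E := by
            apply mul_le_mul_of_nonneg_right _ hE0.le
            calc ∑ i ∈ I j, C j i ≤ ∑ i, C j i :=
                  sum_le_sum_of_subset_of_nonneg (subset_univ _) fun i _ _ => (hC0 j i).le
              _ ≤ ∑ j, ∑ i, C j i :=
                  single_le_sum (f := fun j => ∑ i, C j i)
                    (fun j _ => sum_nonneg fun i _ => (hC0 j i).le) (mem_univ j)
    linarith
  -- membership facts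
  have hmem : ∀ j, ∀ t ∈ A j, 1 ≤ t ∧ (t : ℝ) ≤ 8 * x ∧ x / 8 ≤ (t : ℝ) ∧
      (∀ p ∈ t.primeFactors, x ^ (1 / (K : ℝ)) ≤ (p : ℝ)) ∧
      (∀ i ∈ I j, (c j i * t + 1).Prime) ∧
      ∀ i ∈ I j, ∀ ρ : ℕ, ρ.Prime → ρ ∣ t → ∃ P : ℕ, Lst (c j i) t ρ S P := by
    intro j t ht
    rw [hA] at ht
    obtain ⟨h1, h2, h3, h4, h5⟩ := mem_filter.mp ht
    rw [mem_Icc] at h1
    refine ⟨h1.1, ?_, h2, h3, h4, h5⟩
    have := (Nat.le_floor_iff (by positivity)).mp h1.2
    exact this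
  -- greedy choice
  obtain ⟨t, ht1, ht2⟩ := sel_greedy (ι := J × Fin R) (fun z => A z.1) (32 * K * E)
    (by positivity) (by
      intro z t0 ht0 z'
      obtain ⟨h1, h2, h3, h4, -, -⟩ := hmem z.1 t0 ht0
      have := (hSHR K hK x hx2 t0 h1 h2 h4).2
      refine le_trans ?_ this
      exact_mod_cast card_le_card (filter_subset_filter _ (by rw [hA]; exact filter_subset _ _)))
    univ (by
      intro z
      have h1 := hAcard z.1
      have h2 : (Fintype.card (J × Fin R) : ℝ) * (32 * K * E) = Mb * E - Cs * E := by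
        rw [hMb]; ring
      simp only [card_univ]
      rw [h2]
      linarith)
  have hsm : ∀ j r, ∀ p : ℕ, p.Prime → p ∣ t (j, r) → X1 < p := by
    intro j r p hp hpt
    obtain ⟨h1, h2, h3, h4, -, -⟩ := hmem j (t (j, r)) (ht1 (j, r) (mem_univ _))
    have h5 := h4 p (Nat.mem_primeFactors.mpr ⟨hp, hpt, by omega⟩)
    have h6 : (X1 : ℝ) < p := by
      have : (X1 : ℝ) < Z := by rw [hZ]; linarith
      linarith
    exact_mod_cast h6
  have hXle : ∀ j r, ⌈x / 8⌉₊ ≤ t (j, r) := by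
    intro j r
    obtain ⟨h1, h2, h3, h4, -, -⟩ := hmem j (t (j, r)) (ht1 (j, r) (mem_univ _))
    exact Nat.ceil_le.mpr h3
  have hX1X : X1 ≤ ⌈x / 8⌉₊ := by
    have h1 : (X1 : ℝ) ≤ x / 8 := by linarith
    have h2 : x / 8 ≤ (⌈x / 8⌉₊ : ℝ) := Nat.le_ceil _
    exact_mod_cast h1.trans h2
  refine ⟨⌈x / 8⌉₊, fun j r => t (j, r), ?_, ?_, ?_, ?_, ?_, ?_, ?_⟩
  · omega
  · intro j r
    obtain ⟨h1, h2, h3, h4, -, -⟩ := hmem j (t (j, r)) (ht1 (j, r) (mem_univ _))
    refine ⟨hXle j r, ?_⟩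
    have h5 : x / 8 ≤ (⌈x / 8⌉₊ : ℝ) := Nat.le_ceil _
    have h6 : ((t (j, r) : ℕ) : ℝ) ≤ 100 * (⌈x / 8⌉₊ : ℝ) := by linarith
    exact_mod_cast h6
  · intro j r j' r' hne
    exact ht2 (j, r) (mem_univ _) (j', r') (mem_univ _) hne
  · intro j r p hp hpt
    have := hsm j r p hp hpt
    omega
  · intro j r
    obtain ⟨h1, h2, h3, h4, -, -⟩ := hmem j (t (j, r)) (ht1 (j, r) (mem_univ _))
    exact (hSHR K hK x hx2 _ h1 h2 h4).1
  · intro j r i hi
    obtain ⟨-, -, -, -, h5, -⟩ := hmem j (t (j, r)) (ht1 (j, r) (mem_univ _))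
    exact h5 i hi
  · intro j r i hi ρ hρ hρt
    obtain ⟨h1, h2, h3, h4, h5, h6⟩ := hmem j (t (j, r)) (ht1 (j, r) (mem_univ _))
    obtain ⟨P, hP1, hP2, hP3, hP4⟩ := h6 i hi ρ hρ hρt
    refine ⟨P, hP1, hP2, hP3, ?_⟩
    intro j' r' i' hi' hPe
    change P = c j' i' * t (j', r') + 1 at hPe
    have hcle := hcX1 j i
    have hcle' := hcX1 j' i'
    have hρX := hsm j r ρ hρ hρt
    have hc1 := hpos j i
    have hc1' := hpos j' i'
    have hPm : P - 1 = c j' i' * t (j', r') := by omega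
    rw [hPm] at hP2
    by_cases hsame : (j, r) = (j', r')
    · rw [← hsame] at hP2 hPe
      -- c t ∣ ρ (c' t)
      have h7 : c j i ∣ ρ * c j' i' := by
        have h8 : c j i * t (j, r) ∣ (ρ * c j' i') * t (j, r) := by
          simpa [mul_assoc] using hP2
        exact Nat.dvd_of_mul_dvd_mul_right (by omega) h8
      have hcop : (c j i).Coprime ρ := by
        rw [Nat.coprime_comm, Nat.Prime.coprime_iff_not_dvd hρ]
        intro hd
        have := Nat.le_of_dvd (by omega) hd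
        omega
      have h9 : c j i ∣ c j' i' := hcop.dvd_of_dvd_mul_left h7
      have h10 := Nat.le_of_dvd (by omega) h9
      have h11 : c j i * t (j, r) ≤ c j' i' * t (j, r) := Nat.mul_le_mul_right _ h10
      omega
    · have hcopt : (t (j, r)).Coprime (t (j', r')) :=
        ht2 (j, r) (mem_univ _) (j', r') (mem_univ _) hsame
      have h7 : t (j, r) ∣ (ρ * c j' i') * t (j', r') := by
        refine dvd_trans (Dvd.intro_left _ rfl) (b := c j i * t (j, r)) ?_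
        simpa [mul_assoc] using hP2
      have h8 : t (j, r) ∣ ρ * c j' i' := hcopt.dvd_of_dvd_mul_right h7
      have hcop : (t (j, r)).Coprime (c j' i') := by
        rw [Nat.coprime_iff_gcd_eq_one]
        by_contra hg
        obtain ⟨p, hp, hpd⟩ := Nat.exists_prime_and_dvd hg
        have h9 := hsm j r p hp (hpd.trans (Nat.gcd_dvd_left _ _))
        have h10 := Nat.le_of_dvd (by omega) (hpd.trans (Nat.gcd_dvd_right _ _))
        omega
      have h9 : t (j, r) ∣ ρ := hcop.dvd_of_dvd_mul_right h8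
      have h10 : t (j, r) = ρ := Nat.dvd_antisymm h9 hρt
      have h11 : P ≤ P0 j i := by
        apply hP4 _ (hP0 j i)
        rw [h10, mul_comm (c j i) ρ]
        apply Nat.mul_dvd_mul_left
        have h12 := (hP0m j i).symm
        exact (Nat.modEq_iff_dvd' (hP0 j i).one_le).mp h12
      have h12 := hXle j' r'
      have h13 : t (j', r') ≤ c j' i' * t (j', r') := Nat.le_mul_of_pos_left _ (by omega)
      omega

end SAP
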