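import Pool.Agent.H18.SAP.Stmts

set_option autoImplicit false

namespace SAP
open Finset

/-- distinct primes: totient of a product -/
theorem syb_totient_prod {ι : Type} (s : Finset ι) (f : ι → ℕ) (hp : ∀ i ∈ s, (f i + 1).Prime)
    (hinj : ∀ i ∈ s, ∀ j ∈ s, i ≠ j → f i + 1 ≠ f j + 1) :
    (∏ i ∈ s, (f i + 1)).totient = ∏ i ∈ s, f i := by
  classical
  induction s using Finset.induction_on with
  | empty => simp
  | insert a s ha ih =>
    rw [prod_insert ha, prod_insert ha, Nat.totient_mul, ih, Nat.totient_prime (hp a (mem_insert_self a s))]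
    · simp
    · intro i hi
      exact hp i (mem_insert_of_mem hi)
    · intro i hi j hj hij
      exact hinj i (mem_insert_of_mem hi) j (mem_insert_of_mem hj) hij
    · apply Nat.Coprime.prod_right
      intro i hi
      rw [Nat.coprime_primes (hp a (mem_insert_self a s)) (hp i (mem_insert_of_mem hi))]
      exact hinj a (mem_insert_self a s) i (mem_insert_of_mem hi) (by rintro rfl; exact ha hi)

theorem syb (hSY0 : S_SY0) (hCIN : S_CIN) : S_SYB := by
  classical
  intro L Y S X X0 Cm G Pos _ _ t A B k0 hY hS l ℓ hℓ hℓY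
  obtain ⟨h1, h2, h3, h4, h5⟩ := hSY0 L Y S X X0 Cm G Pos t A B k0 hY hS
  obtain ⟨hX2, hQpos, hQtot, hhs2⟩ := h2 l
  obtain ⟨hk0, hklt, hkG⟩ := hS.kpos l ℓ hℓ hℓY
  have htpos : ∀ π, 1 ≤ t π := fun π => le_trans (by omega) (hS.tX π).1
  have hXG' := hS.XG'
  have hBt : ∀ π, X ≤ B l ℓ π * t π := fun π =>
    le_trans (hS.tX π).1 (Nat.le_mul_of_pos_left _ (hS.Bpos l ℓ hℓ hℓY π).1)
  have hAt : ∀ l' π, X ≤ A l' π * t π := fun l' π =>
    le_trans (hS.tX π).1 (Nat.le_mul_of_pos_left _ (hS.Apos l' π).1)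
  have hcop0 : ∀ q : ℕ, q.Prime → X ≤ q → Nat.Coprime (k0 l ℓ) q := by
    intro q hq hXq
    rw [Nat.coprime_comm, Nat.Prime.coprime_iff_not_dvd hq]
    intro hd
    have := Nat.le_of_dvd hk0 hd
    omega
  have hBB : ∀ π ∈ (univ : Finset Pos), ∀ π' ∈ (univ : Finset Pos), π ≠ π' →
      B l ℓ π * t π + 1 ≠ B l ℓ π' * t π' + 1 := by
    intro π _ π' _ hne
    exact h1 π π' hne _ _ (hS.Bpos l ℓ hℓ hℓY π).1 (hS.Bpos l ℓ hℓ hℓY π).2
      (hS.Bpos l ℓ hℓ hℓY π').1 (hS.Bpos l ℓ hℓ hℓY π').2 hX2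
  have htot : (∏ π, (B l ℓ π * t π + 1)).totient = ∏ π, B l ℓ π * t π :=
    syb_totient_prod univ (fun π => B l ℓ π * t π) (fun π _ => hS.Bpr l ℓ hℓ hℓY π) hBB
  have hcopB : Nat.Coprime (k0 l ℓ) (∏ π, (B l ℓ π * t π + 1)) := by
    apply Nat.Coprime.prod_right
    intro π _
    exact hcop0 _ (hS.Bpr l ℓ hℓ hℓY π) (le_trans (hBt π) (Nat.le_succ _))
  have hhs : hs t A l = ℓ * ((k0 l ℓ).totient * ∏ π, B l ℓ π * t π) := by
    unfold hs
    rw [prod_mul_distrib, prod_mul_distrib, hS.bal l ℓ hℓ hℓY]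
    ring
  have hktot : (k0 l ℓ * ∏ π, (B l ℓ π * t π + 1)).totient =
      (k0 l ℓ).totient * ∏ π, B l ℓ π * t π := by
    rw [Nat.totient_mul hcopB, htot]
  refine ⟨k0 l ℓ * ∏ π, (B l ℓ π * t π + 1), ?_, ?_, ?_, ?_⟩
  · exact Nat.mul_pos hk0 (prod_pos fun π _ => Nat.succ_pos _)
  · intro l' hl'
    unfold Qs
    apply Nat.Coprime.prod_right
    intro π' _
    apply Nat.Coprime.mul_left
    · exact hcop0 _ (hS.Apr l' π') (le_trans (hAt l' π') (Nat.le_succ _))
    · apply Nat.Coprime.prod_left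
      intro π _
      rw [Nat.coprime_primes (hS.Bpr l ℓ hℓ hℓY π) (hS.Apr l' π')]
      by_cases hππ : π = π'
      · subst hππ
        intro h
        have h' : B l ℓ π * t π = A l' π * t π := by omega
        have := Nat.eq_of_mul_eq_mul_right (htpos π) h'
        exact hS.AB l l' π ℓ hℓ hℓY (Ne.symm hl') this
      · exact h1 π π' hππ _ _ (hS.Bpos l ℓ hℓ hℓY π).1 (hS.Bpos l ℓ hℓ hℓY π).2
          (hS.Apos l' π').1 (hS.Apos l' π').2 hX2
  · rw [hktot, hhs]
  · -- the inequality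
    set a : Fin L × Pos → ℕ := fun z => if z.1 = l then B l ℓ z.2 * t z.2 else A z.1 z.2 * t z.2
      with ha
    have hprod : ∀ g : ℕ → ℕ, ∏ z : Fin L × Pos, g (a z) =
        (∏ π, g (B l ℓ π * t π)) * ∏ l' ∈ univ.erase l, ∏ π, g (A l' π * t π) := by
      intro g
      rw [Fintype.prod_prod_type]
      rw [← mul_prod_erase univ _ (mem_univ l)]
      congr 1
      · simp [ha]
      · apply prod_congr rfl
        intro l' hl'
        have hne : l' ≠ l := ne_of_mem_erase hl'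
        simp [ha, hne]
    have hcard : (univ : Finset (Fin L × Pos)).card = L * Fintype.card Pos := by
      simp
    have hXG := hS.XG
    set N := L * Fintype.card Pos with hN
    set g := ℓ * (k0 l ℓ).totient with hg
    have hG1 : 1 ≤ G := by omega
    have hNX : N ≤ X := by
      have : N ≤ 2 * N * G := by nlinarith
      omega
    have hcin := hCIN (Fin L × Pos) univ a X (by
      intro z _
      simp only [ha]
      split_ifs with hz
      · exact hBt z.2
      · exact hAt z.1 z.2) (by rw [hcard]; exact hNX)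
    rw [hcard] at hcin
    have e1 := hprod (fun x => x + 1)
    have e2 := hprod (fun x => x)
    rw [e1, e2] at hcin
    have hs1 : hs t A l = g * ∏ π, B l ℓ π * t π := by rw [hhs, hg]; ring
    rw [hs1]
    have hQ : ∏ l' ∈ univ.erase l, Qs t A l' = ∏ l' ∈ univ.erase l, ∏ π, (A l' π * t π + 1) := rfl
    have hH : ∏ l' ∈ univ.erase l, hs t A l' = ∏ l' ∈ univ.erase l, ∏ π, (A l' π * t π) := rfl
    rw [hQ, hH]
    set PB1 := ∏ π, (B l ℓ π * t π + 1)
    set PB := ∏ π, (B l ℓ π * t π)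
    set QA := ∏ l' ∈ univ.erase l, ∏ π, (A l' π * t π + 1)
    set HA := ∏ l' ∈ univ.erase l, ∏ π, (A l' π * t π)
    have hPB : 0 < PB := prod_pos fun π _ => lt_of_lt_of_le (by omega) (hBt π)
    have hHA : 0 < HA := prod_pos fun l' _ => prod_pos fun π _ => lt_of_lt_of_le (by omega) (hAt l' π)
    have hPP : 0 < PB * HA := Nat.mul_pos hPB hHA
    have hkey : k0 l ℓ * (X + 2 * N) < g * X := by
      have hk1 : k0 l ℓ + 1 ≤ g := hklt
      have hgG : g ≤ G := hkG
      have h6 : 2 * N * k0 l ℓ ≤ 2 * N * G := Nat.mul_le_mul_left _ (by omega)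
      have h7 : (k0 l ℓ + 1) * X ≤ g * X := Nat.mul_le_mul_right _ hk1
      nlinarith
    have hX0 : 0 < X := by omega
    apply lt_of_mul_lt_mul_left _ (Nat.zero_le X)
    calc X * (k0 l ℓ * PB1 * QA) = k0 l ℓ * (X * (PB1 * QA)) := by ring
      _ ≤ k0 l ℓ * ((X + 2 * N) * (PB * HA)) := Nat.mul_le_mul_left _ hcin
      _ = (k0 l ℓ * (X + 2 * N)) * (PB * HA) := by ring
      _ < (g * X) * (PB * HA) := Nat.mul_lt_mul_of_pos_right hkey hPP
      _ = X * (g * PB * HA) := by ring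

end SAP
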